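import Pool.Agent.LC34.Pieces
import Pool.Agent.NL25.Stein

set_option autoImplicit false

/-!
# LC34/Final: posets of height at most `c n` are unimodal (assembly of the pieces)
-/

open Polynomial

namespace Pool.LC34

open Pool.HB45 Pool.HM63 Pool.PH43 Pool.SC45

/-- LEFT PART: `w` increases up to `(N - GG)/2 - K √N` -/
theorem left_part : ∃ K : ℝ, 0 < K ∧ ∃ c : ℝ, 0 < c ∧ ∃ N0 : ℕ, ∀ N ≥ N0,
    ∀ (h : ℕ) (Q : Rel (N + 1)) (κ lab : Fin (N + 1) → ℕ), 1 ≤ h → (h : ℝ) ≤ c * N → Lev h Q κ →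
    Nat' Q lab → Tr Q → ∀ j : ℕ, K * Real.sqrt N ≤ (N - NL25.GG Q) / 2 - j →
    w Q lab j ≤ w Q lab (j + 1) := by
  obtain ⟨K, hK, c5, hc5, c1, hc1, N1, h1⟩ := left_lin
  obtain ⟨C, c2, hc2, N2, h2⟩ := mid_lin c5 hc5
  obtain ⟨c3, hc3, N3, h3⟩ := small_lin C
  refine ⟨K, hK, min c1 (min c2 c3), by positivity, max N1 (max N2 N3), ?_⟩
  intro N hN h Q κ lab hh hc hκ hn hQ
  have g1 : N1 ≤ N := (le_max_left _ _).trans hN
  have g2 : N2 ≤ N := (le_max_left _ _).trans ((le_max_right _ _).trans hN)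
  have g3 : N3 ≤ N := (le_max_right _ _).trans ((le_max_right _ _).trans hN)
  have hN0 : (0 : ℝ) ≤ N := Nat.cast_nonneg _
  have k1 : (h : ℝ) ≤ c1 * N := hc.trans (mul_le_mul_of_nonneg_right (min_le_left _ _) hN0)
  have k2 : (h : ℝ) ≤ c2 * N := hc.trans
    (mul_le_mul_of_nonneg_right ((min_le_right _ _).trans (min_le_left _ _)) hN0)
  have k3 : (h : ℝ) ≤ c3 * N := hc.trans
    (mul_le_mul_of_nonneg_right ((min_le_right _ _).trans (min_le_right _ _)) hN0)
  intro j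
  induction j using Nat.strong_induction_on with
  | _ j ih =>
    intro hj
    have hinc : ∀ i ≤ j, w Q lab i ≤ w Q lab j := by
      intro i hi
      have hmono : ∀ d, i + d ≤ j → w Q lab i ≤ w Q lab (i + d) := by
        intro d
        induction d with
        | zero => intro _; exact le_rfl
        | succ d ihd =>
          intro hd
          refine (ihd (by omega)).trans (ih (i + d) (by omega) ?_)
          have h4 : ((i + d : ℕ) : ℝ) ≤ (j : ℝ) := by exact_mod_cast (by omega : i + d ≤ j)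
          linarith
      have := hmono (j - i) (by omega)
      rwa [Nat.add_sub_cancel' hi] at this
    by_cases hs : j ≤ C * h
    · exact h3 N g3 h Q κ lab hh k3 hκ hn hQ j hs hinc
    · push Not at hs
      by_cases hm : (j : ℝ) ≤ N / 2 - c5 * N
      · exact h2 N g2 h Q κ lab hh k2 hκ hn hQ j hs.le hm hinc
      · push Not at hm
        refine h1 N g1 h Q κ lab hh k1 hκ hn hQ j hj ?_ hinc
        have h5 := NL25.GG_nonneg Q
        linarith

/-- RIGHT PART: `w` decreases from `(N - GG)/2 + K √N` on -/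
theorem right_part : ∃ K : ℝ, 0 < K ∧ ∃ c : ℝ, 0 < c ∧ ∃ N0 : ℕ, ∀ N ≥ N0,
    ∀ (h : ℕ) (Q : Rel (N + 1)) (κ lab : Fin (N + 1) → ℕ), 1 ≤ h → (h : ℝ) ≤ c * N → Lev h Q κ →
    Nat' Q lab → Tr Q → (∀ j, N ≤ 2 * j → w Q lab (j + 1) ≤ w Q lab j) → ∀ j : ℕ,
    K * Real.sqrt N ≤ (j : ℝ) + 1 - (N - NL25.GG Q) / 2 → w Q lab (j + 1) ≤ w Q lab j := by
  obtain ⟨K, hK, c5, hc5, c1, hc1, N1, h1⟩ := right_lin
  obtain ⟨N2, hN2⟩ := exists_nat_ge (2 / c5)
  refine ⟨K, hK, min c1 c5, by positivity, max N1 N2, ?_⟩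
  intro N hN h Q κ lab hh hc hκ hn hQ hup
  have g1 : N1 ≤ N := (le_max_left _ _).trans hN
  have g2 : (N2 : ℝ) ≤ N := by exact_mod_cast (le_max_right _ _).trans hN
  have hN0 : (0 : ℝ) ≤ N := Nat.cast_nonneg _
  have k1 : (h : ℝ) ≤ c1 * N := hc.trans (mul_le_mul_of_nonneg_right (min_le_left _ _) hN0)
  have k2 : (h : ℝ) ≤ c5 * N := hc.trans (mul_le_mul_of_nonneg_right (min_le_right _ _) hN0)
  have hG := NL25.GG_le hκ hn
  have hc5N : 2 ≤ c5 * N := by
    have h6 : 2 / c5 ≤ N := hN2.trans g2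
    rw [div_le_iff₀ hc5] at h6
    linarith
  have key : ∀ k : ℕ, ∀ j : ℕ, N ≤ j + k →
      K * Real.sqrt N ≤ (j : ℝ) + 1 - (N - NL25.GG Q) / 2 → w Q lab (j + 1) ≤ w Q lab j := by
    intro k
    induction k with
    | zero => intro j hj _; exact hup j (by omega)
    | succ k ih =>
      intro j hj hjK
      by_cases h2 : N ≤ 2 * j
      · exact hup j h2
      · have h3 : (2 * j : ℕ) < N := not_le.1 h2
        have h4 : (2 * (j : ℝ)) + 1 ≤ N := by exact_mod_cast h3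
        refine h1 N g1 h Q κ lab hh k1 hκ hn hQ j hjK (by linarith) ?_
        intro i hi
        induction i, hi using Nat.le_induction with
        | base => exact le_rfl
        | succ i hi ihi =>
          refine (ih i (by omega) ?_).trans ihi
          have h5 : ((j : ℝ) + 1) ≤ i := by exact_mod_cast hi
          linarith
  intro j hj
  exact key N j (by omega) hj

/-- LINEAR HEIGHTS. -/
theorem linear_chains : ∃ c : ℝ, 0 < c ∧ ∀ n : ℕ, 1 ≤ n → ∀ (α : Type) [Fintype α] [PartialOrder α]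
    (f : α ≃ Fin n), (∀ x y : α, x < y → f x < f y) →
      (∀ s : Finset α, IsChain (· ≤ ·) (s : Set α) → (s.card : ℝ) ≤ c * n) →
      ∃ m : ℕ, ∀ k : ℕ, (k < m → dn f k ≤ dn f (k + 1)) ∧ (m ≤ k → dn f (k + 1) ≤ dn f k) := by
  obtain ⟨Kl, hKl, c1, hc1, N1, h1⟩ := left_part
  obtain ⟨Kr, hKr, c2, hc2, N2, h2⟩ := right_part
  obtain ⟨K, hKdef⟩ : ∃ K, K = max Kl Kr := ⟨_, rfl⟩
  have hK : 0 < K := by rw [hKdef]; positivity
  have hKl' : Kl ≤ K := by rw [hKdef]; exact le_max_left _ _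
  have hKr' : Kr ≤ K := by rw [hKdef]; exact le_max_right _ _
  obtain ⟨c3, hc3, N3, h3⟩ := cen_lin K hK
  obtain ⟨N4, hN4⟩ := exists_nat_ge ((4 * (K + 1)) ^ 2)
  obtain ⟨M, hM⟩ : ∃ M, M = max (max N1 N2) (max N3 (N4 + 1)) := ⟨_, rfl⟩
  obtain ⟨c, hcdef⟩ : ∃ c, c = min (min c1 c2) (min c3 (1 / 2)) := ⟨_, rfl⟩
  have hc0 : 0 < c := by rw [hcdef]; positivity
  have e1 : c ≤ c1 := by rw [hcdef]; exact (min_le_left _ _).trans (min_le_left _ _)
  have e2 : c ≤ c2 := by rw [hcdef]; exact (min_le_left _ _).trans (min_le_right _ _)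
  have e3 : c ≤ c3 := by rw [hcdef]; exact (min_le_right _ _).trans (min_le_left _ _)
  have e4 : c ≤ 1 / 2 := by rw [hcdef]; exact (min_le_right _ _).trans (min_le_right _ _)
  refine ⟨min (c / 2) (1 / (M + 2)), by positivity, fun n hn1 α _ _ f hf hs => ?_⟩
  obtain ⟨N, rfl⟩ : ∃ N, n = N + 1 := ⟨n - 1, by omega⟩
  have hne : Nonempty α := ⟨f.symm ⟨0, by omega⟩⟩
  have hone : (1 : ℝ) ≤ min (c / 2) (1 / (M + 2)) * ((N + 1 : ℕ) : ℝ) := by
    obtain ⟨a⟩ := hne
    have := hs {a} (by simp)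
    rw [Finset.card_singleton, Nat.cast_one] at this
    exact this
  have hMN : M ≤ N := by
    by_contra hcon
    push Not at hcon
    have h5 : ((N + 1 : ℕ) : ℝ) ≤ M := by exact_mod_cast hcon
    have h6 : min (c / 2) (1 / (M + 2)) * ((N + 1 : ℕ) : ℝ) ≤ 1 / (M + 2) * M :=
      mul_le_mul (min_le_right _ _) h5 (Nat.cast_nonneg _) (by positivity)
    have h7 : 1 / ((M : ℝ) + 2) * M < 1 := by
      rw [div_mul_eq_mul_div, one_mul, div_lt_one (by positivity)]
      linarith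
    linarith
  have g1 : N1 ≤ N := by rw [hM] at hMN; exact ((le_max_left _ _).trans (le_max_left _ _)).trans hMN
  have g2 : N2 ≤ N := by rw [hM] at hMN; exact ((le_max_right _ _).trans (le_max_left _ _)).trans hMN
  have g3 : N3 ≤ N := by rw [hM] at hMN; exact ((le_max_left _ _).trans (le_max_right _ _)).trans hMN
  have g4 : N4 + 1 ≤ N := by
    rw [hM] at hMN; exact ((le_max_right _ _).trans (le_max_right _ _)).trans hMN
  have hN1 : (1 : ℝ) ≤ N := by exact_mod_cast (by omega : 1 ≤ N)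
  -- the height
  obtain ⟨h, hh⟩ : ∃ h, h = ⌊min (c / 2) (1 / (M + 2)) * ((N + 1 : ℕ) : ℝ)⌋₊ := ⟨_, rfl⟩
  have hh1 : 1 ≤ h := by
    rw [hh]
    exact Nat.le_floor (by rw [Nat.cast_one]; exact hone)
  have hhc : (h : ℝ) ≤ c * N := by
    have h5 : (h : ℝ) ≤ min (c / 2) (1 / (M + 2)) * ((N + 1 : ℕ) : ℝ) := by
      rw [hh]
      exact Nat.floor_le (by linarith)
    have h6 : min (c / 2) (1 / ((M : ℝ) + 2)) * ((N + 1 : ℕ) : ℝ) ≤ c / 2 * ((N + 1 : ℕ) : ℝ) :=
      mul_le_mul_of_nonneg_right (min_le_left _ _) (Nat.cast_nonneg _)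
    push_cast at h5 h6
    nlinarith
  obtain ⟨κ, hκ⟩ := exists_lev (h := h) f fun s hs' => by
    rw [hh]
    exact Nat.le_floor (hs s hs')
  have hQtr : Tr (rel f) := fun a b c hab hbc => lt_trans hab hbc
  have hnat := nat_rel f hf
  have hN0 : (0 : ℝ) ≤ N := by linarith
  have k1 : (h : ℝ) ≤ c1 * N := hhc.trans (mul_le_mul_of_nonneg_right e1 hN0)
  have k2 : (h : ℝ) ≤ c2 * N := hhc.trans (mul_le_mul_of_nonneg_right e2 hN0)
  have k3 : (h : ℝ) ≤ c3 * N := hhc.trans (mul_le_mul_of_nonneg_right e3 hN0)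
  have k4 : (h : ℝ) ≤ 1 / 2 * N := hhc.trans (mul_le_mul_of_nonneg_right e4 hN0)
  have hG := NL25.GG_le hκ hnat
  have hG0 := NL25.GG_nonneg (rel f)
  have hcard : Fintype.card α = N + 1 := by rw [Fintype.card_congr f, Fintype.card_fin]
  have hup : ∀ j, N ≤ 2 * j → w (rel f) (fun a => a.val) (j + 1) ≤ w (rel f) (fun a => a.val) j := by
    intro j hj
    rw [← dn_eq, ← dn_eq]
    exact upper (N + 1) hcard f hf j (by omega)
  have hsq : Real.sqrt N * Real.sqrt N = N := Real.mul_self_sqrt hN0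
  have hsq4 : 4 * (K + 1) ≤ Real.sqrt N := by
    apply Real.le_sqrt_of_sq_le
    have h5 : ((N4 + 1 : ℕ) : ℝ) ≤ N := by exact_mod_cast g4
    push_cast at h5
    linarith
  have hKs : K * Real.sqrt N + 1 ≤ (N : ℝ) / 4 := by
    have h5 : 0 ≤ Real.sqrt N := Real.sqrt_nonneg _
    nlinarith
  have hmonol : Kl * Real.sqrt N ≤ K * Real.sqrt N :=
    mul_le_mul_of_nonneg_right hKl' (Real.sqrt_nonneg _)
  have hmonor : Kr * Real.sqrt N ≤ K * Real.sqrt N :=
    mul_le_mul_of_nonneg_right hKr' (Real.sqrt_nonneg _)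
  have hG' : (NL25.GG (rel f)) = NL25.GG (rel f) := rfl
  refine combine (dn f)
    (fun j => K * Real.sqrt N ≤ (N - NL25.GG (rel f)) / 2 - j)
    (fun j => K * Real.sqrt N ≤ (j : ℝ) + 1 - (N - NL25.GG (rel f)) / 2) ?_ ?_ ?_ ?_ ?_ ?_
  · intro j hj
    rw [dn_eq, dn_eq]
    exact h1 N g1 h (rel f) κ _ hh1 k1 hκ hnat hQtr j (hmonol.trans hj)
  · intro j hj hj'
    rw [dn_eq, dn_eq, dn_eq]
    push Not at hj hj'
    refine h3 N g3 h (rel f) κ _ hh1 k3 hκ hnat hQtr j ?_ ?_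
    · by_contra h0
      have h5 : j = 0 := by omega
      rw [h5] at hj
      push_cast at hj
      linarith
    · rw [abs_le]
      constructor <;> linarith
  · intro j hj
    push_cast at hj
    linarith
  · intro j hj
    push_cast
    linarith
  · intro j hj
    rw [dn_eq, dn_eq]
    exact h2 N g2 h (rel f) κ _ hh1 k2 hκ hnat hQtr hup j (hmonor.trans hj)
  · refine ⟨N, ?_⟩
    have h5 : 0 ≤ K * Real.sqrt N := by positivity
    linarith

end Pool.LC34
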