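import Pool.Agent.TT45.Reg3
import Pool.Agent.SC45.LD

set_option autoImplicit false

/-!
# LC34/MidL: the middle regime for heights at most `c n`, from `TT45.main_regime3`
-/

namespace Pool.LC34

open Pool.HB45 Pool.PH43 Pool.SC45

theorem sqrt_log_small (ε : ℝ) (hε : 0 < ε) : ∃ N0 : ℕ, ∀ N ≥ N0,
    Real.sqrt (((N : ℝ) + 1) * Real.log (N + 1)) ≤ ε * (N + 1) := by
  have h1 := Real.isLittleO_log_id_atTop.def (show 0 < ε ^ 2 by positivity)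
  have h2 := (Filter.tendsto_atTop_add_const_right _ (1 : ℝ)
    tendsto_natCast_atTop_atTop).eventually h1
  obtain ⟨N0, hN0⟩ := Filter.eventually_atTop.1 h2
  refine ⟨N0, fun N hN => ?_⟩
  have h4 := hN0 N hN
  have hp : (0 : ℝ) ≤ (N : ℝ) + 1 := by positivity
  rw [Real.norm_eq_abs, Real.norm_eq_abs, id, abs_of_nonneg hp] at h4
  have h5 := (le_abs_self _).trans h4
  rw [← Real.sqrt_sq (show 0 ≤ ε * ((N : ℝ) + 1) by positivity)]
  refine Real.sqrt_le_sqrt ?_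
  calc ((N : ℝ) + 1) * Real.log (N + 1) ≤ ((N : ℝ) + 1) * (ε ^ 2 * ((N : ℝ) + 1)) :=
        mul_le_mul_of_nonneg_left h5 hp
    _ = (ε * ((N : ℝ) + 1)) ^ 2 := by ring

theorem mid_linS (c5 : ℝ) (hc5 : 0 < c5) : ∃ C : ℕ, ∃ c : ℝ, 0 < c ∧ ∃ N0 : ℕ, ∀ N ≥ N0,
    ∀ (h : ℕ) (Q : Rel (N + 1)) (κ lab : Fin (N + 1) → ℕ), 1 ≤ h → (h : ℝ) ≤ c * N → Lev h Q κ →
    Nat' Q lab → Tr Q → ∀ j : ℕ, C * h ≤ j → (j : ℝ) ≤ N / 2 - c5 * N →
    (∀ i ≤ j, w Q lab i ≤ w Q lab j) → w Q lab j ≤ w Q lab (j + 1) := by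
  obtain ⟨K0, hK0⟩ := TT45.main_regime3
  obtain ⟨K, hKdef⟩ : ∃ K, K = max K0 1 := ⟨_, rfl⟩
  have k0 : K0 ≤ K := by rw [hKdef]; exact le_max_left _ _
  have k1 : 1 ≤ K := by rw [hKdef]; exact le_max_right _ _
  obtain ⟨C, hC⟩ := exists_nat_ge K
  obtain ⟨N1, hN1⟩ := sqrt_log_small (c5 / (4 * K)) (by positivity)
  refine ⟨C, c5 / (4 * K), by positivity, max N1 2, ?_⟩
  intro N hN h Q κ lab hh hc hκ hn _ j hCj hj hinc
  have g1 : N1 ≤ N := (le_max_left _ _).trans hN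
  have g2 : 2 ≤ N := (le_max_right _ _).trans hN
  have g2' : (2 : ℝ) ≤ N := by exact_mod_cast g2
  refine hK0 K k0 N h j Q κ lab hh (by omega) hκ hn ?_ ?_ hinc
  · have h1 : ((C * h : ℕ) : ℝ) ≤ j := by exact_mod_cast hCj
    push_cast at h1
    have h2 : K * (h : ℝ) ≤ C * h := mul_le_mul_of_nonneg_right hC (Nat.cast_nonneg _)
    linarith
  · have h1 := hN1 N g1
    have h2 : K * ((h : ℝ) + Real.sqrt ((N + 1) * Real.log (N + 1))) ≤
        K * (c5 / (4 * K) * N + c5 / (4 * K) * (N + 1)) :=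
      mul_le_mul_of_nonneg_left (add_le_add hc h1) (by linarith)
    have h3 : K * (c5 / (4 * K) * N + c5 / (4 * K) * (N + 1)) = c5 / 4 * (2 * N + 1) := by
      field_simp
      ring
    rw [h3] at h2
    have h4 : c5 / 4 * (2 * N + 1) ≤ c5 * N := by nlinarith
    linarith

end Pool.LC34
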