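import Pool.Agent.NL25.Defs
import Pool.Agent.HB45.Uni
import Pool.Agent.NL48.CenL
import Pool.Agent.LC34.MidL
import Pool.Agent.LH64.Main
import Pool.Agent.LH9.Left

set_option autoImplicit false

/-!
# LC34/Pieces: posets of height at most `c n` (MP_dcdbc5_co), the pieces

`N + 1` = number of elements, `w Q lab j` = number of linear extensions with `j` descents, `Lev h Q κ`: every chain has at most
`h` elements, `NL25.GG Q` = mean of the number of comparable neighbours (= `NL48.Gm Q` by `rfl`).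
-/

namespace Pool.LC34

open Pool.HB45 Pool.PH43 Pool.SC45

/-- (P1) SMALL `j` (helper64, LH64) -/
theorem small_lin (C : ℕ) : ∃ c : ℝ, 0 < c ∧ ∃ N0 : ℕ, ∀ N ≥ N0, ∀ (h : ℕ) (Q : Rel (N + 1))
    (κ lab : Fin (N + 1) → ℕ), 1 ≤ h → (h : ℝ) ≤ c * N → Lev h Q κ → Nat' Q lab → Tr Q → ∀ j : ℕ,
    j ≤ C * h → (∀ i ≤ j, w Q lab i ≤ w Q lab j) → w Q lab j ≤ w Q lab (j + 1) := by
  obtain ⟨L, hL⟩ := LH64.small_lin C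
  refine ⟨1 / (L + 1), by positivity, 0, fun N _ h Q κ lab hh hc hκ hn hQ j hj hinc => ?_⟩
  refine hL N h j Q κ lab hh ?_ hQ hκ hn hj hinc
  have h1 : ((L : ℝ) + 1) * h ≤ N := by
    have h2 : ((L : ℝ) + 1) * h ≤ (L + 1) * (1 / (L + 1) * N) :=
      mul_le_mul_of_nonneg_left hc (by positivity)
    have h3 : ((L : ℝ) + 1) * (1 / (L + 1) * N) = N := by field_simp
    linarith
  have h4 : (L + 1) * h ≤ N := by exact_mod_cast h1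
  nlinarith

/-- (P2) MIDDLE (helper45, TT45) -/
theorem mid_lin (c5 : ℝ) (hc5 : 0 < c5) : ∃ C : ℕ, ∃ c : ℝ, 0 < c ∧ ∃ N0 : ℕ, ∀ N ≥ N0,
    ∀ (h : ℕ) (Q : Rel (N + 1)) (κ lab : Fin (N + 1) → ℕ), 1 ≤ h → (h : ℝ) ≤ c * N → Lev h Q κ →
    Nat' Q lab → Tr Q → ∀ j : ℕ, C * h ≤ j → (j : ℝ) ≤ N / 2 - c5 * N →
    (∀ i ≤ j, w Q lab i ≤ w Q lab j) → w Q lab j ≤ w Q lab (j + 1) := by
  exact mid_linS c5 hc5

/-- (P3) LEFT OF THE MEAN, without a logarithm (helper9, LH9) -/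
theorem left_lin : ∃ K : ℝ, 0 < K ∧ ∃ c5 : ℝ, 0 < c5 ∧ ∃ c : ℝ, 0 < c ∧ ∃ N0 : ℕ, ∀ N ≥ N0,
    ∀ (h : ℕ) (Q : Rel (N + 1)) (κ lab : Fin (N + 1) → ℕ), 1 ≤ h → (h : ℝ) ≤ c * N → Lev h Q κ →
    Nat' Q lab → Tr Q → ∀ j : ℕ, K * Real.sqrt N ≤ (N - NL25.GG Q) / 2 - j →
    (N - NL25.GG Q) / 2 - j ≤ c5 * N →
    (∀ i ≤ j, w Q lab i ≤ w Q lab j) → w Q lab j ≤ w Q lab (j + 1) := by
  exact LH9.left_lf

/-- (P3) RIGHT OF THE MEAN (helper9, LH9) -/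
theorem right_lin : ∃ K : ℝ, 0 < K ∧ ∃ c5 : ℝ, 0 < c5 ∧ ∃ c : ℝ, 0 < c ∧ ∃ N0 : ℕ, ∀ N ≥ N0,
    ∀ (h : ℕ) (Q : Rel (N + 1)) (κ lab : Fin (N + 1) → ℕ), 1 ≤ h → (h : ℝ) ≤ c * N → Lev h Q κ →
    Nat' Q lab → Tr Q → ∀ j : ℕ, K * Real.sqrt N ≤ (j : ℝ) + 1 - (N - NL25.GG Q) / 2 →
    (j : ℝ) + 1 - (N - NL25.GG Q) / 2 ≤ c5 * N →
    (∀ i, j + 1 ≤ i → w Q lab i ≤ w Q lab (j + 1)) → w Q lab (j + 1) ≤ w Q lab j := by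
  exact LH9.right_lf

/-- (P4) CENTRE (helper48: `cen_core` with `|s| ≤ A / √N`) -/
theorem cen_lin (K : ℝ) (hK : 0 < K) : ∃ c : ℝ, 0 < c ∧ ∃ N0 : ℕ, ∀ N ≥ N0,
    ∀ (h : ℕ) (Q : Rel (N + 1)) (κ lab : Fin (N + 1) → ℕ), 1 ≤ h → (h : ℝ) ≤ c * N → Lev h Q κ →
    Nat' Q lab → Tr Q → ∀ j : ℕ, 1 ≤ j → |(N - NL25.GG Q) / 2 - j| ≤ K * Real.sqrt N →
    0 < w Q lab j ∧ w Q lab (j - 1) * w Q lab (j + 1) ≤ w Q lab j ^ 2 := by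
  obtain ⟨c, hc, N0, h0⟩ := NL48.center_lin (2 * K) (by positivity)
  refine ⟨c, hc, N0, fun N hN h Q κ lab hh hhc hκ hn _ j hj hjc => ?_⟩
  refine h0 N hN h hh hhc Q κ lab hκ hn j hj ?_
  have e : 2 * (j : ℝ) - (N - NL48.Gm Q) = -(2 * ((N - NL25.GG Q) / 2 - j)) := by
    have : NL48.Gm Q = NL25.GG Q := rfl
    rw [this]
    ring
  rw [e, abs_neg, abs_mul, abs_of_pos (by norm_num : (0 : ℝ) < 2)]
  linarith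

end Pool.LC34
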